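import Pool.Agent.EDG.Stmts

/-!
# Squad EDG, row MOA: modulo 2 the point has exact degree n
-/

set_option autoImplicit false

namespace Pool.Agent.EDG.H24

open Polynomial Finset

theorem it_char_two {k : Type} [Field k] [CharP k 2] (θ : k) (i : ℕ) :
    it θ (-θ) i = θ ^ (2 ^ i) := by
  have h2 : (2 : k) = 0 := by exact_mod_cast CharP.cast_eq_zero k 2
  induction i with
  | zero =>
    rw [it_zero, pow_zero, pow_one]
    have h : θ + θ = 0 := by rw [← two_mul, h2, zero_mul]
    exact (eq_neg_of_add_eq_zero_left h).symm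
  | succ i ih =>
    rw [it_succ, ih, h2, zero_mul, zero_mul, add_zero, ← pow_mul, ← pow_succ]

theorem moa : MoaStmt := by
  intro n g hc k _ _ θ hθ
  have h2 : (2 : k) = 0 := by exact_mod_cast CharP.cast_eq_zero k 2
  constructor
  · obtain ⟨q, hq⟩ := hc.per
    have h1 : aeval θ (Yp n - Yp 0) = 0 := by rw [hq, map_mul, hθ, zero_mul]
    rw [map_sub, aeval_Yp, aeval_Yp, it_char_two, it_char_two, sub_eq_zero] at h1
    simpa using h1
  · intro l hl hln hper
    have : IsDomain (AdjoinRoot g) := AdjoinRoot.isDomain_of_prime hc.prime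
    let b : AdjoinRoot g := AdjoinRoot.root g
    have hmk : ∀ i, AdjoinRoot.mk g (Yp i) = it b (-b) i := by
      intro i
      have h := it_map (AdjoinRoot.mk g) (X : ℤ[X]) (-X) i
      rw [map_neg, AdjoinRoot.mk_X] at h
      exact h
    have hyn : it b (-b) n = it b (-b) 0 := by
      rw [← hmk, ← hmk, ← sub_eq_zero, ← map_sub, AdjoinRoot.mk_eq_zero]
      exact hc.per
    have hper' : ∀ i, it b (-b) (n + i) = it b (-b) i := by
      intro i
      rw [it_add, hyn, it_zero]
    have hne : it b (-b) l - it b (-b) 0 ≠ 0 := by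
      rw [← hmk, ← hmk, ← map_sub]
      intro h
      exact hc.ex l hl hln (AdjoinRoot.mk_eq_zero.mp h)
    have hprod : ∀ m, it b (-b) (l + m) - it b (-b) m =
        (it b (-b) l - it b (-b) 0) *
          ∏ j ∈ range m, (it b (-b) (l + j) + it b (-b) j + 2 * b) := by
      intro m
      induction m with
      | zero => simp
      | succ m ih =>
        rw [prod_range_succ, ← mul_assoc, ← ih, ← add_assoc, it_succ, it_succ]
        ring
    have h1 : ∏ j ∈ range n, (it b (-b) (l + j) + it b (-b) j + 2 * b) = 1 := by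
      have h3 := hprod n
      rw [add_comm l n, hper' l, hyn] at h3
      have h4 : (it b (-b) l - it b (-b) 0) *
          (∏ j ∈ range n, (it b (-b) (l + j) + it b (-b) j + 2 * b) - 1) = 0 := by
        rw [mul_sub, ← h3]; ring
      exact sub_eq_zero.mp ((mul_eq_zero.mp h4).resolve_left hne)
    have hg0 : g.eval₂ (Int.castRingHom k) θ = 0 := by
      have := hθ
      rw [aeval_def] at this
      simpa using this
    let φ : AdjoinRoot g →+* k := AdjoinRoot.lift (Int.castRingHom k) θ hg0
    have hφb : φ b = θ := AdjoinRoot.lift_root hg0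
    have hφ : ∀ i, φ (it b (-b) i) = θ ^ (2 ^ i) := by
      intro i
      rw [it_map, map_neg, hφb, it_char_two]
    have h5 := congrArg φ h1
    rw [map_prod, map_one] at h5
    have h6 : (0 : k) = 1 := by
      rw [← h5]
      symm
      apply prod_eq_zero (i := 0) (mem_range.mpr (by omega))
      rw [map_add, map_add, map_mul, hφ, hφ, add_zero, hper]
      simp only [pow_zero, pow_one, map_ofNat, h2, zero_mul, add_zero]
      rw [← two_mul, h2, zero_mul]
    exact zero_ne_one h6

end Pool.Agent.EDG.H24
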