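import Pool.Agent.EDG.Stmts

/-!
# Squad EDG, row BND: sizes
-/

set_option autoImplicit false

namespace Pool.Agent.EDG.H24

open Polynomial Finset

theorem bnd : BndStmt := by
  intro n g hc b hb
  have hn : 0 < n := hc.npos
  set x : ℕ → ℂ := fun i => it b (-b) i + b with hx
  set c : ℂ := b - b ^ 2 with hcdef
  have hx0 : x 0 = 0 := by simp [hx, it_zero]
  have hxs : ∀ i, x (i + 1) = x i ^ 2 + c := by
    intro i
    simp only [hx, hcdef, it_succ]
    ring
  have hyn : it b (-b) n = -b := by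
    obtain ⟨q, hq⟩ := hc.per
    have h1 : aeval b (Yp n - Yp 0) = 0 := by rw [hq, map_mul, hb, zero_mul]
    rw [map_sub, aeval_Yp, aeval_Yp, sub_eq_zero] at h1
    simpa [it_zero] using h1
  have hyk : ∀ k, it b (-b) (n * k) = -b := by
    intro k
    induction k with
    | zero => simp [it_zero]
    | succ k ih => rw [Nat.mul_succ, it_add, ih, hyn]
  have hxk : ∀ k, x (n * k) = 0 := by
    intro k
    simp [hx, hyk k]
  have hlow : ∀ i, ‖x i‖ ^ 2 - ‖c‖ ≤ ‖x (i + 1)‖ := by
    intro i
    rw [hxs, ← norm_pow]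
    have h1 := norm_sub_norm_le (x i ^ 2) (-c)
    rw [norm_neg, sub_neg_eq_add] at h1
    exact h1
  have hc2 : ‖c‖ ≤ 2 := by
    by_contra h
    have h : 2 < ‖c‖ := not_le.mp h
    have h1 : ∀ i, ‖c‖ ≤ ‖x (i + 1)‖ := by
      intro i
      induction i with
      | zero =>
        rw [hxs, hx0]
        simp
      | succ i ih =>
        have h2 := hlow (i + 1)
        nlinarith [norm_nonneg c]
    have h2 := h1 (n - 1)
    rw [show n - 1 + 1 = n * 1 by omega, hxk 1, norm_zero] at h2
    linarith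
  have hx2 : ∀ i, ‖x i‖ ≤ 2 := by
    intro i
    by_contra h
    have h : 2 < ‖x i‖ := not_le.mp h
    have h1 : ∀ m, ‖x i‖ ≤ ‖x (i + m)‖ := by
      intro m
      induction m with
      | zero => simp
      | succ m ih =>
        have h2 := hlow (i + m)
        rw [← add_assoc]
        nlinarith
    have h3 : i ≤ n * i := Nat.le_mul_of_pos_left i hn
    have h2 := h1 (n * i - i)
    rw [show i + (n * i - i) = n * i by omega, hxk i, norm_zero] at h2
    linarith
  have hb2 : ‖b‖ ≤ 2 := by
    have h1 : ‖b‖ ^ 2 ≤ ‖b‖ + ‖c‖ := by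
      have h2 : b ^ 2 = b - c := by rw [hcdef]; ring
      rw [← norm_pow, h2]
      exact norm_sub_le b c
    nlinarith [norm_nonneg b]
  refine ⟨hb2, fun i => ?_⟩
  have h1 : it b (-b) i = x i - b := by simp [hx]
  rw [h1]
  have h2 := norm_sub_le (x i) b
  have h3 := hx2 i
  linarith

end Pool.Agent.EDG.H24
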